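import Mathlib
import Pool.Agent.Helper97.BG.Defs

/-!
Project B2 (MP_8410f8_pr): definitions.

Part 1 is discrete: `M` cells, each in a state `(N, b)` (occupation number, active or passive).
Part 2 is the iterated integral `J` over configurations with prescribed numbers of points in the cells.
-/

open MeasureTheory Set
open scoped ENNReal

namespace Pool.Agent.Helper94.B2

open Pool.Agent.Helper97.BG

/-- States of the `M` cells. -/
abbrev Conf (M : ℕ) := Fin M → ℕ × Bool

/-- The key of a cell: occupation number first, then the index. -/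
def key {M : ℕ} (w : Conf M) (v : Fin M) : ℕ ×ₗ Fin M := toLex ((w v).1, v)

/-- `W` is the greedy independent set of active cells in decreasing order of the key. -/
def IsGreedy {M : ℕ} (H : Fin M → Fin M → Prop) (w : Conf M) (W : Set (Fin M)) : Prop :=
  ∀ v, v ∈ W ↔ ((w v).2 = true ∧ ∀ u, H v u → key w v < key w u → u ∉ W)

open Classical in
/-- The greedy set (unique, see `exists_greedy`, `greedy_unique`). -/
noncomputable def greedy {M : ℕ} (H : Fin M → Fin M → Prop) (w : Conf M) : Set (Fin M) :=
  if h : ∃ W, IsGreedy H w W then h.choose else ∅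

open Classical in
/-- The occupation numbers after the points of the greedy cells have been deleted. -/
noncomputable def kept {M : ℕ} (H : Fin M → Fin M → Prop) (w : Conf M) : Fin M → ℕ :=
  fun v => if v ∈ greedy H w then 0 else (w v).1

/-- Weight of one cell: Poisson weight (without the exponential) times the probability of the type;
a cell with `N` points is passive with probability `s ^ N`. -/
noncomputable def cw (s t : ℝ≥0∞) (p : ℕ × Bool) : ℝ≥0∞ :=
  t ^ p.1 * ((p.1.factorial : ℝ≥0∞))⁻¹ * (if p.2 then 1 - s ^ p.1 else s ^ p.1)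

/-- Weight of a configuration. -/
noncomputable def wt {M : ℕ} (s : ℝ≥0∞) (t : Fin M → ℝ≥0∞) (w : Conf M) : ℝ≥0∞ :=
  ∏ v, cw s (t v) (w v)

/-- Total weight of the configurations with kept occupation numbers `D`. -/
noncomputable def qq {M : ℕ} (H : Fin M → Fin M → Prop) (s : ℝ≥0∞) (t : Fin M → ℝ≥0∞)
    (D : Fin M → ℕ) : ℝ≥0∞ :=
  ∑' w : Conf M, ind (kept H w = D) * wt s t w

open Classical in
/-- The surgery at `v` and a greedy neighbour `u` of `v`: both cells are emptied and the neighbours
of `u` with a smaller key become passive. -/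
noncomputable def surg {M : ℕ} (H : Fin M → Fin M → Prop) (w : Conf M) (v u : Fin M) : Conf M :=
  fun x => if x = v ∨ x = u then (0, false)
    else if H u x ∧ key w x < key w u then ((w x).1, false) else w x

/-- Poisson weights. -/
noncomputable def po (t : ℝ≥0∞) (j : ℕ) : ℝ≥0∞ :=
  ENNReal.ofReal (Real.exp (-t.toReal)) * (t ^ j * ((j.factorial : ℝ≥0∞))⁻¹)

/-- `J M nu D f`: the integral of `f (set of all points)` when cell `i` contains `D i` independent
points of law `nu i`. -/
noncomputable def J {S : Type*} [MeasurableSpace S] :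
    (M : ℕ) → (Fin M → Measure S) → (Fin M → ℕ) → (Set S → ℝ≥0∞) → ℝ≥0∞
  | 0, _, _, f => f ∅
  | M + 1, nu, D, f =>
      tup (nu 0) (D 0) fun A =>
        J M (fun i => nu i.succ) (fun i => D i.succ) fun B => f (A ∪ B)

end Pool.Agent.Helper94.B2
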